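import Mathlib
import Pool.Agent.X173.LMD

/-!
# Liouville matrices kept Liouville by injective continuous maps

For positive integers `m, n` the set `E(U,(f_k))` of Liouville matrices in a non-empty open set `U`
which are sent to Liouville matrices by each of the injective continuous maps `f_k` has positive
Hausdorff dimension for all choices of `U` and `(f_k)` if and only if `n ≥ 2`; and for `n ≥ 2` the
dimension is always at least `1`.

Idea: the complement of the Liouville set is a countable union of rational affine subspaces and of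
closed sets `F_N` disjoint from all rational subspaces.  If `dim E < 1` then almost every hyperplane
slice misses `E`, so (Baire) an open piece `S` of the slice is mapped by one `f_k` into a rational
subspace or into one `F_N`.  By invariance of domain `f_k(S)` locally separates, but for `n ≥ 2` two
nearby rational matrices can be joined by a short path inside the union of the rational subspaces.
-/

open MeasureTheory Metric Set Filter Topology

namespace Pool.Agent.Results.MP_7a8bd8_nt.PositiveDimension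

/-- Real `m × n` matrices, as the Euclidean space of dimension `m n` (entries listed by
`Fin m × Fin n`). -/
abbrev Mat (m n : ℕ) := EuclideanSpace ℝ (Fin m × Fin n)

/-- The Liouville condition: `A q ≠ p` for all integer vectors `(q,p) ≠ (0,0)`, and for every
`N > 0` there are integer vectors `p` and `q` with `‖q‖ ≥ 2` and `‖A q - p‖ < ‖q‖ ^ (-N)`
(supremum norms). -/
def IsLiouvilleMatrix {m n : ℕ} (A : Mat m n) : Prop :=
  (∀ (q : Fin n → ℤ) (p : Fin m → ℤ), ¬ (q = 0 ∧ p = 0) →
    (fun i => (∑ j, A (i, j) * (q j : ℝ)) - (p i : ℝ)) ≠ 0) ∧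
  (∀ N : ℝ, 0 < N → ∃ (p : Fin m → ℤ) (q : Fin n → ℤ),
    2 ≤ ‖(fun j => (q j : ℝ) : Fin n → ℝ)‖ ∧
    ‖(fun i => (∑ j, A (i, j) * (q j : ℝ)) - (p i : ℝ) : Fin m → ℝ)‖
      < ‖(fun j => (q j : ℝ) : Fin n → ℝ)‖ ^ (-N))

/-- The set `E(U,(f_k))`. -/
def ESet {m n : ℕ} (U : Set (Mat m n)) (f : ℕ → Mat m n → Mat m n) : Set (Mat m n) :=
  {A | A ∈ U ∧ IsLiouvilleMatrix A ∧ ∀ k, IsLiouvilleMatrix (f k A)}

theorem result (m n : ℕ) (hm : 1 ≤ m) (hn : 1 ≤ n) :
    ((∀ (U : Set (Mat m n)) (f : ℕ → Mat m n → Mat m n), IsOpen U → U.Nonempty →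
        (∀ k, ContinuousOn (f k) U ∧ InjOn (f k) U) → 0 < dimH (ESet U f)) ↔ 2 ≤ n) ∧
    (2 ≤ n → ∀ (U : Set (Mat m n)) (f : ℕ → Mat m n → Mat m n), IsOpen U → U.Nonempty →
        (∀ k, ContinuousOn (f k) U ∧ InjOn (f k) U) → 1 ≤ dimH (ESet U f)) := by
  have main : 2 ≤ n → ∀ (U : Set (Mat m n)) (f : ℕ → Mat m n → Mat m n), IsOpen U → U.Nonempty →
        (∀ k, ContinuousOn (f k) U ∧ InjOn (f k) U) → 1 ≤ dimH (ESet U f) := by
    intro hn2 U f hU hne hf
    let g : ℕ → Mat m n → Mat m n := fun k => match k with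
      | 0 => id
      | k + 1 => f k
    have hc : ∀ k, ContinuousOn (g k) U := by
      rintro (_ | k)
      · exact continuousOn_id
      · exact (hf k).1
    have hi : ∀ k, InjOn (g k) U := by
      rintro (_ | k)
      · exact injOn_id U
      · exact (hf k).2
    have h := Pool.Agent.X173.LM.one_le_dimH hm hn2 hU hne g hc hi
    refine h.trans (dimH_mono ?_)
    rintro A ⟨hA1, hA2⟩
    exact ⟨hA1, hA2 0, fun k => hA2 (k + 1)⟩
  refine ⟨⟨fun h => ?_, fun hn2 U f hU hne hf => lt_of_lt_of_le zero_lt_one (main hn2 U f hU hne hf)⟩,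
    main⟩
  by_contra hn2
  have hn1 : n = 1 := by omega
  subst hn1
  have h1 := h univ (fun _ => id) isOpen_univ ⟨0, mem_univ _⟩
    (fun k => ⟨continuousOn_id, injOn_id _⟩)
  have h2 : dimH (ESet (univ : Set (Mat m 1)) (fun _ => id)) ≤ 0 := by
    rw [← Pool.Agent.X173.LM.dimH_one m]
    apply dimH_mono
    rintro A ⟨-, hA, -⟩
    exact hA
  exact absurd (lt_of_lt_of_le h1 h2) (lt_irrefl _)

end Pool.Agent.Results.MP_7a8bd8_nt.PositiveDimension
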